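import Mathlib

set_option autoImplicit false

/-!
Stabilizers of colourings and large quotients of permutation groups: for every number `r` of colours
there are transitive permutation groups `G` with quotients `H` of arbitrarily large order such that
the stabilizer in `G` of every colouring of the points with `r` colours is mapped onto `H`.

Let `A = (ZMod 2) ^ s`. The set of points is `A × Fin (r + 1)`, and `G` consists of the permutations
`(a, x) ↦ (a + t, τ a x)` with `t ∈ A` and `τ : A → Perm (Fin (r + 1))` such that the sign of `τ a`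
is `(-1) ^ (l ⬝ a + c)` for some `l ∈ A`, `c ∈ ZMod 2`. The map `φ` sends such a permutation to `l`.
-/

namespace Pool.Agent.Results.MP_5c8dfa_al.EveryNumberOfColours

open Equiv

/-- the sign `ZMod 2 → {1, -1}` -/
def sg (e : ZMod 2) : ℤˣ := if e = 0 then 1 else -1

lemma sg_zero : sg 0 = 1 := by decide

lemma sg_add : ∀ e f : ZMod 2, sg (e + f) = sg e * sg f := by decide

lemma sg_inv : ∀ e : ZMod 2, (sg e)⁻¹ = sg e := by decide

lemma sg_inj : ∀ e f : ZMod 2, sg e = sg f → e = f := by decide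

lemma sg_surj : ∀ u : ℤˣ, ∃ e : ZMod 2, sg e = u := by decide

/-- the set of points -/
abbrev Om (s n : ℕ) : Type := (Fin s → ZMod 2) × Fin n

/-- the pairs `(g, l)` -/
def IsG {s n : ℕ} (g : Perm (Om s n)) (l : Fin s → ZMod 2) : Prop :=
  ∃ (t : Fin s → ZMod 2) (c : ZMod 2) (τ : (Fin s → ZMod 2) → Perm (Fin n)),
    (∀ a, Perm.sign (τ a) = sg (l ⬝ᵥ a + c)) ∧ ∀ a x, g (a, x) = (a + t, τ a x)

/-- the group of pairs `(g, l)` -/
def GG (s n : ℕ) : Subgroup (Perm (Om s n) × Multiplicative (Fin s → ZMod 2)) where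
  carrier := {p | IsG p.1 p.2.toAdd}
  mul_mem' := by
    rintro ⟨g', l'⟩ ⟨g, l⟩ ⟨t', c', τ', hs', h'⟩ ⟨t, c, τ, hs, h⟩
    refine ⟨t + t', c + c' + l'.toAdd ⬝ᵥ t, fun a => τ' (a + t) * τ a, ?_, ?_⟩
    · intro a
      simp only at hs hs'
      rw [map_mul, hs, hs', ← sg_add]
      congr 1
      show _ = (l'.toAdd + l.toAdd) ⬝ᵥ a + (c + c' + l'.toAdd ⬝ᵥ t)
      rw [add_dotProduct, dotProduct_add]; ring
    · intro a x
      show g' (g (a, x)) = _
      simp only at h h'
      rw [h, h', add_assoc]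
      rfl
  one_mem' := by
    refine ⟨0, 0, fun _ => 1, ?_, ?_⟩
    · intro a
      simp [sg_zero]
    · intro a x
      simp
  inv_mem' := by
    rintro ⟨g, l⟩ ⟨t, c, τ, hs, h⟩
    refine ⟨-t, c - l.toAdd ⬝ᵥ t, fun a => (τ (a - t))⁻¹, ?_, ?_⟩
    · intro a
      simp only at hs
      rw [map_inv, hs, sg_inv]
      congr 1
      show _ = (-l.toAdd) ⬝ᵥ a + (c - l.toAdd ⬝ᵥ t)
      have h2 : ∀ z : ZMod 2, -z = z := by decide
      rw [neg_dotProduct, h2 (l.toAdd ⬝ᵥ a), dotProduct_sub]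
      ring
    · intro a x
      simp only at h
      show g⁻¹ (a, x) = _
      rw [Perm.inv_eq_iff_eq, h]
      simp [sub_eq_add_neg]

lemma fst_inj (s n : ℕ) : Function.Injective
    ((MonoidHom.fst (Perm (Om s n)) (Multiplicative (Fin s → ZMod 2))).comp
      (GG s n).subtype) := by
  rintro ⟨⟨g, l⟩, t, c, τ, hs, h⟩ ⟨⟨g', l'⟩, t', c', τ', hs', h'⟩ hgg
  have hg : g = g' := hgg
  subst hg
  simp only at h h' hs hs'
  have h1 : ∀ a, l.toAdd ⬝ᵥ a + c = l'.toAdd ⬝ᵥ a + c' := by
    intro a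
    apply sg_inj
    rw [← hs, ← hs']
    congr 1
    ext x
    have e0 := h a x
    rw [h' a x] at e0
    exact congrArg Fin.val (congrArg Prod.snd e0).symm
  have h0 := h1 0
  simp only [dotProduct_zero, zero_add] at h0
  have h2 : l.toAdd = l'.toAdd := by
    funext i
    have h3 := h1 (Pi.single i 1)
    rw [h0] at h3
    have h4 := add_right_cancel h3
    simpa using h4
  have h5 : l = l' := Multiplicative.toAdd.injective h2
  subst h5
  rfl

/-- For every number `r ≥ 1` of colours, every `s` and `Ω = (ZMod 2) ^ s × Fin (r + 1)` there are a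
transitive group `G` of permutations of `Ω` and an epimorphism `φ` from `G` onto the elementary
abelian group `(ZMod 2) ^ s` such that for every colouring `χ` of the points with `r` colours the
group of all `g ∈ G` that preserve `χ` is mapped by `φ` onto `(ZMod 2) ^ s`. -/
theorem main (r s : ℕ) (hr : 1 ≤ r) : ∃ (G : Subgroup (Perm (Om s (r + 1))))
    (φ : G →* Multiplicative (Fin s → ZMod 2)),
    (∀ x y : Om s (r + 1), ∃ g ∈ G, g x = y) ∧ Function.Surjective φ ∧
    ∀ χ : Om s (r + 1) → Fin r, ∀ h : Multiplicative (Fin s → ZMod 2),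
      ∃ g : G, (∀ p, χ ((g : Perm (Om s (r + 1))) p) = χ p) ∧ φ g = h := by
  have hcov : ∀ (χ : Om s (r + 1) → Fin r) (l : Fin s → ZMod 2),
      ∃ g : Perm (Om s (r + 1)), IsG g l ∧ ∀ p, χ (g p) = χ p := by
    intro χ l
    have h1 : ∀ a : Fin s → ZMod 2, ∃ τ : Perm (Fin (r + 1)),
        Perm.sign τ = sg (l ⬝ᵥ a) ∧ ∀ x, χ (a, τ x) = χ (a, x) := by
      intro a
      by_cases h0 : l ⬝ᵥ a = 0
      · exact ⟨1, by rw [h0]; simp [sg_zero], fun x => rfl⟩
      · obtain ⟨x, y, hxy, hc⟩ := Fintype.exists_ne_map_eq_of_card_lt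
          (fun x : Fin (r + 1) => χ (a, x)) (by simp)
        refine ⟨swap x y, ?_, fun z => ?_⟩
        · rw [Perm.sign_swap hxy, sg, if_neg h0]
        · rcases eq_or_ne z x with rfl | hz
          · rw [swap_apply_left]; exact hc.symm
          · rcases eq_or_ne z y with rfl | hz'
            · rw [swap_apply_right]; exact hc
            · rw [swap_apply_of_ne_of_ne hz hz']
    choose τ hτ hχ using h1
    let g : Perm (Om s (r + 1)) := Equiv.prodCongrRight τ
    exact ⟨g, ⟨0, 0, τ, fun a => by rw [add_zero]; exact hτ a, fun a x => by simp [g]⟩,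
      fun p => hχ p.1 p.2⟩
  let ι := ((MonoidHom.fst (Perm (Om s (r + 1))) (Multiplicative (Fin s → ZMod 2))).comp
    (GG s (r + 1)).subtype)
  let e : GG s (r + 1) ≃* ι.range := MonoidHom.ofInjective (fst_inj s (r + 1))
  let ψ : GG s (r + 1) →* Multiplicative (Fin s → ZMod 2) :=
    (MonoidHom.snd (Perm (Om s (r + 1))) (Multiplicative (Fin s → ZMod 2))).comp
      (GG s (r + 1)).subtype
  have he : ∀ p : GG s (r + 1), ((e p : ι.range) : Perm (Om s (r + 1))) = p.1.1 := fun p => rfl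
  have lift : ∀ (g : Perm (Om s (r + 1))) (h : Multiplicative (Fin s → ZMod 2)),
      IsG g h.toAdd → ∃ g' : ι.range, (g' : Perm (Om s (r + 1))) = g ∧
        (ψ.comp e.symm.toMonoidHom) g' = h := by
    intro g h hg
    let p : GG s (r + 1) := ⟨(g, h), hg⟩
    refine ⟨e p, he p, ?_⟩
    show ψ (e.symm (e p)) = h
    rw [MulEquiv.symm_apply_apply]
    rfl
  refine ⟨ι.range, ψ.comp e.symm.toMonoidHom, ?_, ?_, ?_⟩
  · rintro ⟨a, x⟩ ⟨a', x'⟩
    obtain ⟨c, hc⟩ := sg_surj (Perm.sign (swap x x'))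
    let g : Perm (Om s (r + 1)) := (Equiv.addRight (a' - a)).prodCongr (swap x x')
    have hg : IsG g (0 : Fin s → ZMod 2) := by
      refine ⟨a' - a, c, fun _ => swap x x', fun b => ?_, fun b y => ?_⟩
      · rw [zero_dotProduct, zero_add]; exact hc.symm
      · simp [g]
    obtain ⟨g', hg', -⟩ := lift g (Multiplicative.ofAdd 0) hg
    refine ⟨g, hg' ▸ g'.2, ?_⟩
    simp [g]
  · intro h
    obtain ⟨g, hg, -⟩ := hcov (fun _ => ⟨0, hr⟩) h.toAdd
    obtain ⟨g', -, hg'⟩ := lift g h hg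
    exact ⟨g', hg'⟩
  · intro χ h
    obtain ⟨g, hg, hχ⟩ := hcov χ h.toAdd
    obtain ⟨g', hg1, hg2⟩ := lift g h hg
    exact ⟨g', fun p => by rw [hg1]; exact hχ p, hg2⟩

/-- For every number `r ≥ 1` of colours and every `s` there are a set `Ω` with `2 ^ s * (r + 1)`
points, a transitive group `G` of permutations of `Ω` and an epimorphism `φ` from `G` onto the
elementary abelian group `H` of order `2 ^ s` such that for every colouring of `Ω` with `r` colours
the group of all `g ∈ G` preserving the colouring is mapped by `φ` onto `H`. In particular, if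
`2 ^ k ≤ r`, then for any `k` subsets of `Ω` the intersection of their setwise stabilizers in `G` is
mapped onto `H`. -/
theorem result (r s : ℕ) (hr : 1 ≤ r) : ∃ (Ω : Type) (_ : Fintype Ω) (G : Subgroup (Perm Ω))
    (φ : G →* Multiplicative (Fin s → ZMod 2)),
    Fintype.card Ω = 2 ^ s * (r + 1) ∧
    (∀ x y : Ω, ∃ g ∈ G, g x = y) ∧ Function.Surjective φ ∧
    Nat.card (Multiplicative (Fin s → ZMod 2)) = 2 ^ s ∧
    (∀ χ : Ω → Fin r, ∀ h, ∃ g : G, (∀ p, χ ((g : Perm Ω) p) = χ p) ∧ φ g = h) ∧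
    (∀ k : ℕ, 2 ^ k ≤ r → ∀ Δ : Fin k → Set Ω, ∀ h,
      ∃ g : G, (∀ i, (g : Perm Ω) '' Δ i = Δ i) ∧ φ g = h) := by
  obtain ⟨G, φ, h1, h2, h3⟩ := main r s hr
  refine ⟨Om s (r + 1), inferInstance, G, φ, by simp, h1, h2, ?_, h3, ?_⟩
  · rw [Nat.card_congr Multiplicative.toAdd, Nat.card_fun]
    simp
  · intro k hk Δ h
    classical
    have hcard : Fintype.card (Fin k → Bool) ≤ Fintype.card (Fin r) := by simpa using hk
    obtain ⟨j⟩ := Function.Embedding.nonempty_of_card_le hcard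
    obtain ⟨g, hg, hgh⟩ := h3 (fun p => j fun i => decide (p ∈ Δ i)) h
    refine ⟨g, fun i => ?_, hgh⟩
    have hmem : ∀ p, (g : Perm (Om s (r + 1))) p ∈ Δ i ↔ p ∈ Δ i := by
      intro p
      have h4 := congrFun (j.injective (hg p)) i
      simpa using h4
    ext p
    constructor
    · rintro ⟨q, hq, rfl⟩
      exact (hmem q).mpr hq
    · intro hp
      refine ⟨(g : Perm (Om s (r + 1)))⁻¹ p, ?_, by simp⟩
      rw [← hmem]
      simpa using hp

end Pool.Agent.Results.MP_5c8dfa_al.EveryNumberOfColours
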